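import Pool.Agent.Q162.Nil.Final

/-!
Dense orbits along R_e-sequences in minimal nilsystems.
-/

namespace Pool.Agent.Results.MP_33f427_an.NilsystemDenseOrbits

open Set Filter
open scoped Topology Manifold ContDiff

/-- Minimality of `(X,T)`: every forward orbit `{T^n x : n = 1, 2, 3, ...}` is dense. -/
def IsMinimal {X : Type} [TopologicalSpace X] (T : X → X) : Prop :=
  ∀ x : X, Dense {y | ∃ n : ℕ, 1 ≤ n ∧ T^[n] x = y}

/-- The orbit of `x` along `A` is dense. -/
def DenseAlong {X : Type} [TopologicalSpace X] (T : X → X) (A : Set ℕ) (x : X) : Prop :=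
  Dense {y | ∃ n ∈ A, T^[n] x = y}

/-- `R_e`-sequences: sets `A` of positive integers such that every minimal equicontinuous system
(a nonempty compact metric space with a continuous surjection, minimal, with equicontinuous
iterates) contains a point with dense orbit along `A`. -/
def IsReSequence (A : Set ℕ) : Prop :=
  (∀ n ∈ A, 1 ≤ n) ∧
  ∀ (X : Type) [MetricSpace X] [CompactSpace X] [Nonempty X] (T : X → X),
    Continuous T → Function.Surjective T → IsMinimal T → Equicontinuous (fun n : ℕ => T^[n]) →
      ∃ x : X, DenseAlong T A x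

/-- auxiliary copy of `ZMod m` (used inside the proof, with the metric of its representatives) -/
def Cyc (m : ℕ) : Type := ZMod m

lemma mod_of_Re {A : Set ℕ} (hA : IsReSequence A) (m c : ℕ) (hc : c < m) :
    ∃ n ∈ A, n % m = c := by
  have hm : NeZero m := ⟨by omega⟩
  let ι : Cyc m → ℝ := fun z => ((ZMod.val (n := m) z : ℕ) : ℝ)
  have hι : Function.Injective ι := fun x y h => ZMod.val_injective m (Nat.cast_injective h)
  letI : MetricSpace (Cyc m) := MetricSpace.induced ι hι inferInstance
  letI : CommRing (Cyc m) := inferInstanceAs (CommRing (ZMod m))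
  have hfin : Finite (Cyc m) := inferInstanceAs (Finite (ZMod m))
  have hdisc : DiscreteTopology (Cyc m) := Finite.instDiscreteTopology
  let T : Cyc m → Cyc m := fun z => z + 1
  have hT : ∀ (n : ℕ) (z : Cyc m), T^[n] z = z + n := by
    intro n
    induction n with
    | zero => intro z; simp
    | succ n ih => intro z; rw [Function.iterate_succ_apply', ih]; simp only [T]; push_cast; ring
  obtain ⟨x, hx⟩ := hA.2 (Cyc m) T continuous_of_discreteTopology
    (fun z => ⟨z - 1, by simp [T]⟩) (by
      intro x
      have h1 : {y | ∃ n : ℕ, 1 ≤ n ∧ T^[n] x = y} = univ := by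
        rw [eq_univ_iff_forall]
        intro y
        refine ⟨ZMod.val (n := m) (y - x) + m, by omega, ?_⟩
        rw [hT]
        have e1 : ((ZMod.val (n := m) (y - x) : ℕ) : Cyc m) = y - x := ZMod.natCast_zmod_val (y - x)
        have e2 : ((m : ℕ) : Cyc m) = 0 := ZMod.natCast_self m
        push_cast
        rw [e1, e2]
        ring
      rw [h1]; exact dense_univ) (by
      intro x V hV
      rw [nhds_discrete, eventually_pure]
      intro n
      exact refl_mem_uniformity hV)
  unfold DenseAlong at hx
  rw [dense_discrete] at hx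
  have h1 : x + (c : Cyc m) ∈ {y | ∃ n ∈ A, T^[n] x = y} := by rw [hx]; trivial
  obtain ⟨n, hn, e⟩ := h1
  refine ⟨n, hn, ?_⟩
  rw [hT] at e
  have e2 : (n : Cyc m) = (c : Cyc m) := add_left_cancel e
  have e3 := (ZMod.natCast_eq_natCast_iff' n c m).1 e2
  rw [e3, Nat.mod_eq_of_lt hc]

lemma rot_of_Re {A : Set ℕ} (hA : IsReSequence A) : Q162.Nil.RotHyp A := by
  intro Z _ _ _ _ _ _ α hmin
  letI : MetricSpace Z := TopologicalSpace.metrizableSpaceMetric Z
  let T : Z → Z := fun z => α * z
  have hT : ∀ (n : ℕ) (z : Z), T^[n] z = α ^ n * z := by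
    intro n z
    exact congrFun (smul_iterate (α := Z) α n) z
  obtain ⟨x, hx⟩ := hA.2 Z T (by fun_prop) (fun z => ⟨α⁻¹ * z, by simp [T]⟩) (by
      intro x
      simp only [hT]
      exact hmin x) (by
      have hc : UniformContinuous (fun p : Z × Z => p.1 * p.2) :=
        CompactSpace.uniformContinuous_of_continuous (by fun_prop)
      apply UniformEquicontinuous.equicontinuous
      rw [Metric.uniformEquicontinuous_iff]
      intro ε hε
      obtain ⟨δ, hδ, h⟩ := Metric.uniformContinuous_iff.1 hc ε hε
      refine ⟨δ, hδ, ?_⟩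
      intro x y hxy n
      rw [hT, hT]
      exact @h (α ^ n, x) (α ^ n, y) (by
        rw [Prod.dist_eq]; simp only [dist_self]
        exact max_lt hδ hxy))
  refine ⟨x, ?_⟩
  unfold DenseAlong at hx
  simp only [hT] at hx
  exact hx

/-- **Theorem.** Let `A` be an `R_e`-sequence, `G` a nilpotent Lie group (Hausdorff, finite
dimensional, not assumed connected or second countable), `Γ` a discrete subgroup with compact
quotient `G ⧸ Γ`, and `a ∈ G` such that the nilsystem `y ↦ a y` on `G ⧸ Γ` is minimal. Then some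
point of `G ⧸ Γ` has a dense orbit along `A`. -/
theorem result {A : Set ℕ} (hA : IsReSequence A)
    {E : Type} [NormedAddCommGroup E] [NormedSpace ℝ E] [FiniteDimensional ℝ E]
    {G : Type} [TopologicalSpace G] [T2Space G] [ChartedSpace E G] [Group G]
    [LieGroup 𝓘(ℝ, E) ∞ G] [Group.IsNilpotent G]
    (Γ : Subgroup G) [DiscreteTopology Γ] [CompactSpace (G ⧸ Γ)] (a : G)
    (hmin : IsMinimal (fun y : G ⧸ Γ => a • y)) :
    ∃ y : G ⧸ Γ, DenseAlong (fun y : G ⧸ Γ => a • y) A y := by
  have h1 : LieGroup 𝓘(ℝ, E) 1 G := LieGroup.of_le (n := ∞) (by exact_mod_cast le_top)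
  have h2 : IsTopologicalGroup G := topologicalGroup_of_lieGroup 𝓘(ℝ, E) 1
  have h3 : LocallyCompactSpace G := ChartedSpace.locallyCompactSpace E G
  have h4 : FirstCountableTopology G := by
    refine ⟨fun x => ?_⟩
    rw [← (chartAt E x).symm_map_nhds_eq (mem_chart_source E x)]
    infer_instance
  have hV : SecondCountableTopology (chartAt E (1 : G)).source :=
    (chartAt E (1 : G)).secondCountableTopology_source
  have h5 := Q162.Nil.SR_lie 𝓘(ℝ, E) (G := G)
  have hit : ∀ (n : ℕ) (y : G ⧸ Γ), (fun y : G ⧸ Γ => a • y)^[n] y = a ^ n • y := by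
    intro n y
    exact congrFun (smul_iterate (α := G ⧸ Γ) a n) y
  unfold IsMinimal at hmin
  unfold DenseAlong
  simp only [hit] at hmin ⊢
  exact Q162.Nil.nil_main (chartAt E (1 : G)).open_source (mem_chart_source E 1) h5 Γ a hmin
    (mod_of_Re hA) (rot_of_Re hA)

end Pool.Agent.Results.MP_33f427_an.NilsystemDenseOrbits
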